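import Pool.Agent.H25.DP.Targets2

/-!
# Two dilations: the smoothed averages for the dilation `2`
-/

set_option autoImplicit false

open Complex MeasureTheory Set Filter Topology

namespace Pool.Agent.H43.DP.AV2

open Pool.Agent.H25.DL Pool.Agent.H25.DP Pool.Agent.H23.GLH

/-- the summable weight -/
noncomputable def wt (m : ℕ) : ℝ := 1 / ((m : ℝ) * Real.sqrt m)

lemma wt_nonneg (m : ℕ) : 0 ≤ wt m := by unfold wt; positivity

lemma summable_wt : Summable wt := by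
  have h := (Real.summable_one_div_nat_rpow (p := 3 / 2)).2 (by norm_num)
  refine h.congr fun m => ?_
  unfold wt
  congr 1
  rcases Nat.eq_zero_or_pos m with hm | hm
  · subst hm
    simp
  · have hm' : (0 : ℝ) < m := by exact_mod_cast hm
    rw [show (3 / 2 : ℝ) = 1 + 1 / 2 by norm_num, Real.rpow_add hm', Real.rpow_one,
      Real.sqrt_eq_rpow]

lemma VV_two (B : ℝ) (m k : ℕ) :
    VV 2 B m k = (m : ℝ) ^ 2 * k * Real.exp (-B - (2 - 1)) := by
  unfold VV
  have h : (1 / (2 - 1) : ℝ) = 1 := by norm_num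
  rw [h, Real.rpow_one, Real.rpow_two]

/-- the periodic function -/
noncomputable def gg (χ : PrimChar) (ρ : ℝ) (m k : ℕ) : ℂ :=
  χ.χ (k : ZMod χ.q) * cexp ((-((m : ℝ) ^ 2 * k * ρ) : ℝ) * I)

lemma gg_per (ψ χ : PrimChar) {ρ : ℝ} (hρ : ρ = Real.pi * χ.q / (2 * ψ.q ^ 2)) (m n : ℕ) :
    gg χ ρ m (n + 4 * ψ.q ^ 2 * χ.q) = gg χ ρ m n := by
  have hψ : (ψ.q : ℝ) ≠ 0 := by
    have := ψ.q_ne.out
    exact_mod_cast this
  unfold gg
  congr 1
  · congr 1
    push_cast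
    rw [ZMod.natCast_self]
    ring
  · have e : (-((m : ℝ) ^ 2 * ((n + 4 * ψ.q ^ 2 * χ.q : ℕ) : ℝ) * ρ) : ℝ) =
        -((m : ℝ) ^ 2 * n * ρ) + ((-((m : ℤ) ^ 2 * (χ.q : ℤ) ^ 2) : ℤ) : ℝ) * (2 * Real.pi) := by
      rw [hρ]
      push_cast
      field_simp
      ring
    rw [e, Complex.ofReal_add, add_mul, Complex.exp_add]
    have : cexp ((((((-((m : ℤ) ^ 2 * (χ.q : ℤ) ^ 2) : ℤ) : ℝ) * (2 * Real.pi) : ℝ)) : ℂ) * I) =
        1 := by
      rw [Complex.exp_eq_one_iff]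
      refine ⟨-((m : ℤ) ^ 2 * (χ.q : ℤ) ^ 2), ?_⟩
      push_cast
      ring
    rw [this, mul_one]

lemma per_bound (h : T_PER) (ψ χ : PrimChar) {ρ : ℝ}
    (hρ : ρ = Real.pi * χ.q / (2 * ψ.q ^ 2)) (m : ℕ) {e : ℝ} (he : 0 < e) :
    ∃ K₀ : ℕ, ∀ K x : ℕ, K₀ ≤ K → 1 ≤ K → K ≤ x → x ≤ 2 * K →
      ‖∑ k ∈ Finset.Ico K x, ((ArithmeticFunction.moebius k : ℤ) : ℂ) * chz χ k *
        cexp ((-((m : ℝ) ^ 2 * k * ρ) : ℝ) * I)‖ ≤ e * K := by
  have hq : 1 ≤ 4 * ψ.q ^ 2 * χ.q := by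
    have h1 := Nat.pos_of_ne_zero ψ.q_ne.out
    have h2 := Nat.pos_of_ne_zero χ.q_ne.out
    have : 0 < 4 * ψ.q ^ 2 * χ.q := by positivity
    omega
  have ht := h _ (gg χ ρ m) hq (gg_per ψ χ hρ m)
  rw [Metric.tendsto_atTop] at ht
  obtain ⟨K₀, hK₀⟩ := ht (e / 3) (by positivity)
  have hb : ∀ N : ℕ, K₀ ≤ N → 1 ≤ N →
      ‖∑ n ∈ Finset.range N, ((ArithmeticFunction.moebius n : ℤ) : ℂ) * gg χ ρ m n‖ ≤
        e / 3 * N := by
    intro N hN hN1
    have := hK₀ N hN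
    rw [dist_zero_right, norm_div, Complex.norm_natCast, div_lt_iff₀ (by exact_mod_cast hN1)]
      at this
    exact this.le
  refine ⟨K₀, fun K x hK hK1 hKx hx => ?_⟩
  have h1 := hb K hK hK1
  have h2 := hb x (hK.trans hKx) (hK1.trans hKx)
  have e1 : ∑ k ∈ Finset.Ico K x, ((ArithmeticFunction.moebius k : ℤ) : ℂ) * chz χ k *
        cexp ((-((m : ℝ) ^ 2 * k * ρ) : ℝ) * I) =
      ∑ n ∈ Finset.range x, ((ArithmeticFunction.moebius n : ℤ) : ℂ) * gg χ ρ m n -
        ∑ n ∈ Finset.range K, ((ArithmeticFunction.moebius n : ℤ) : ℂ) * gg χ ρ m n := by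
    rw [← Finset.sum_Ico_eq_sub _ hKx]
    refine Finset.sum_congr rfl fun k hk => ?_
    have hk0 : k ≠ 0 := by
      have := (Finset.mem_Ico.1 hk).1
      omega
    unfold gg chz
    rw [if_neg hk0, mul_assoc]
  rw [e1]
  refine (norm_sub_le _ _).trans ?_
  have hx' : (x : ℝ) ≤ 2 * K := by exact_mod_cast hx
  have : e / 3 * x ≤ e / 3 * (2 * K) := by gcongr
  linarith

lemma triv_bound (χ : PrimChar) (θ : ℕ → ℝ) {K x : ℕ} (hx : x ≤ 2 * K) :
    ‖∑ k ∈ Finset.Ico K x, ((ArithmeticFunction.moebius k : ℤ) : ℂ) * chz χ k *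
        cexp ((θ k : ℝ) * I)‖ ≤ K := by
  refine (norm_sum_le _ _).trans ?_
  have h1 : ∀ k ∈ Finset.Ico K x, ‖((ArithmeticFunction.moebius k : ℤ) : ℂ) * chz χ k *
      cexp ((θ k : ℝ) * I)‖ ≤ 1 := by
    intro k _
    rw [norm_mul, norm_mul, Complex.norm_exp_ofReal_mul_I, mul_one]
    have h1 := moebius_norm_le k
    have h2 := norm_chz_le χ k
    nlinarith [norm_nonneg ((ArithmeticFunction.moebius k : ℤ) : ℂ), norm_nonneg (chz χ k)]
  refine (Finset.sum_le_card_nsmul _ _ 1 h1).trans ?_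
  rw [Nat.card_Ico, nsmul_eq_mul, mul_one]
  exact_mod_cast (by omega : x - K ≤ K)

/-- the size of one stationary term -/
lemma term_le {T ρ e : ℝ} {m K : ℕ} (hT : 0 ≤ T) (hρ : 0 < ρ) (he : 0 ≤ e) (hm : 1 ≤ m)
    (hK : 1 ≤ K) (h : (m : ℝ) ^ 2 * K * ρ ≤ 16 * T) :
    Real.sqrt T / Real.sqrt m / Real.sqrt K * (e * K) ≤
      4 / Real.sqrt ρ * T * (e * wt m) := by
  have hm' : (0 : ℝ) < m := by exact_mod_cast hm
  have hK' : (0 : ℝ) < K := by exact_mod_cast hK
  have hsm := Real.sqrt_pos.2 hm'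
  have hsK := Real.sqrt_pos.2 hK'
  have hsρ := Real.sqrt_pos.2 hρ
  have h1 : Real.sqrt K * Real.sqrt ρ * m ≤ 4 * Real.sqrt T := by
    have e1 : (Real.sqrt K * Real.sqrt ρ * m) ^ 2 ≤ (4 * Real.sqrt T) ^ 2 := by
      have e2 : (Real.sqrt K * Real.sqrt ρ * m) ^ 2 = (m : ℝ) ^ 2 * K * ρ := by
        rw [mul_pow, mul_pow, Real.sq_sqrt hK'.le, Real.sq_sqrt hρ.le]
        ring
      have e3 : (4 * Real.sqrt T) ^ 2 = 16 * T := by
        rw [mul_pow, Real.sq_sqrt hT]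
        norm_num
      rw [e2, e3]
      exact h
    exact le_of_sq_le_sq e1 (by positivity)
  have e4 : Real.sqrt T / Real.sqrt m / Real.sqrt K * (e * K) =
      e * Real.sqrt T * (Real.sqrt K * Real.sqrt ρ * m) / (Real.sqrt ρ * (m * Real.sqrt m)) := by
    have : (K : ℝ) = Real.sqrt K * Real.sqrt K := (Real.mul_self_sqrt hK'.le).symm
    field_simp
    nth_rewrite 1 [this]
    ring
  have e5 : 4 / Real.sqrt ρ * T * (e * wt m) =
      e * Real.sqrt T * (4 * Real.sqrt T) / (Real.sqrt ρ * (m * Real.sqrt m)) := by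
    unfold wt
    have : T = Real.sqrt T * Real.sqrt T := (Real.mul_self_sqrt hT).symm
    field_simp
    nth_rewrite 1 [this]
    ring
  rw [e4, e5]
  gcongr

/-- few blocks for a given `m` -/
lemma count {T ρ : ℝ} {m : ℕ} (hρ : 0 < ρ) (hm : 1 ≤ m) (S : Finset (Bool → ℕ))
    (hS : ∀ j ∈ S, 2 ^ j true ≤ m ∧ m < 2 ^ (j true + 1) ∧
      T / 8 ≤ (m : ℝ) ^ 2 * (2 ^ j false : ℕ) * ρ ∧
      (m : ℝ) ^ 2 * (2 ^ j false : ℕ) * ρ ≤ 16 * T) : S.card ≤ 8 := by
  classical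
  rcases S.eq_empty_or_nonempty with h0 | hne
  · simp [h0]
  · obtain ⟨j₀, hj₀, hmin⟩ := S.exists_min_image (fun j => j false) hne
    have hm' : (0 : ℝ) < m := by exact_mod_cast hm
    have hinj : Set.InjOn (fun j : Bool → ℕ => j false) (S : Set (Bool → ℕ)) := by
      intro j hj j' hj' hjj
      have a1 := hS j hj
      have a2 := hS j' hj'
      have b1 := Nat.log_eq_of_pow_le_of_lt_pow a1.1 a1.2.1
      have b2 := Nat.log_eq_of_pow_le_of_lt_pow a2.1 a2.2.1
      funext b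
      cases b
      · exact hjj
      · exact b1.symm.trans b2
    rw [← Finset.card_image_of_injOn hinj]
    have hsub : S.image (fun j : Bool → ℕ => j false) ⊆ Finset.Icc (j₀ false) (j₀ false + 7) := by
      intro i hi
      obtain ⟨j, hj, rfl⟩ := Finset.mem_image.1 hi
      rw [Finset.mem_Icc]
      refine ⟨hmin j hj, ?_⟩
      have a1 := (hS j hj).2.2.2
      have a2 := (hS j₀ hj₀).2.2.1
      have h1 : (m : ℝ) ^ 2 * ρ * (2 ^ j false : ℕ) ≤
          (m : ℝ) ^ 2 * ρ * (2 ^ (j₀ false + 7) : ℕ) := by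
        push_cast at a1 a2 ⊢
        rw [pow_add]
        norm_num
        nlinarith
      have h2 : ((2 ^ j false : ℕ) : ℝ) ≤ (2 ^ (j₀ false + 7) : ℕ) :=
        le_of_mul_le_mul_left h1 (by positivity)
      have h3 : 2 ^ j false ≤ 2 ^ (j₀ false + 7) := by exact_mod_cast h2
      exact (Nat.pow_le_pow_iff_right (by norm_num)).1 h3
    refine (Finset.card_le_card hsub).trans ?_
    rw [Nat.card_Icc]
    omega

/-- the double sum -/
lemma double_sum (S : Finset (Bool → ℕ)) (st : (Bool → ℕ) → Finset ℕ) (f : ℕ → ℝ)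
    (hf : ∀ m, 0 ≤ f m) (hc : ∀ m, (S.filter fun j => m ∈ st j).card ≤ 8) :
    ∑ j ∈ S, ∑ m ∈ st j, f m ≤ 8 * ∑ m ∈ S.biUnion st, f m := by
  classical
  have h1 : ∑ j ∈ S, ∑ m ∈ st j, f m =
      ∑ m ∈ S.biUnion st, ∑ j ∈ S.filter (fun j => m ∈ st j), f m := by
    refine Finset.sum_comm' fun j m => ?_
    rw [Finset.mem_filter, Finset.mem_biUnion]
    constructor
    · rintro ⟨h1, h2⟩
      exact ⟨⟨h1, h2⟩, ⟨j, h1, h2⟩⟩
    · rintro ⟨h1, _⟩
      exact h1
  rw [h1, Finset.mul_sum]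
  refine Finset.sum_le_sum fun m _ => ?_
  rw [Finset.sum_const, nsmul_eq_mul]
  have : ((S.filter fun j => m ∈ st j).card : ℝ) ≤ 8 := by exact_mod_cast hc m
  have := hf m
  gcongr

/-- powers of the logarithm -/
lemma log_small (C C' : ℝ) (hC' : 0 < C') : ∃ T₀ : ℝ, ∀ T : ℝ, T₀ ≤ T →
    C' * Real.log T ^ C ≤ T ^ (1 / 4 : ℝ) := by
  have h := isLittleO_log_rpow_rpow_atTop C (show (0 : ℝ) < 1 / 4 by norm_num)
  have h1 := h.bound (show (0 : ℝ) < 1 / C' by positivity)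
  obtain ⟨T₀, hT₀⟩ := (h1.and (eventually_ge_atTop (1 : ℝ))).exists_forall_of_atTop
  refine ⟨T₀, fun T hT => ?_⟩
  obtain ⟨h2, h3⟩ := hT₀ T hT
  rw [Real.norm_eq_abs, Real.norm_eq_abs, abs_of_nonneg (Real.rpow_nonneg (Real.log_nonneg h3) _),
    abs_of_nonneg (Real.rpow_nonneg (by linarith) _)] at h2
  calc C' * Real.log T ^ C ≤ C' * (1 / C' * T ^ (1 / 4 : ℝ)) := by gcongr
    _ = T ^ (1 / 4 : ℝ) := by field_simp

open Classical in
/-- the stationary `m` -/
noncomputable def st (T B : ℝ) (j : Bool → ℕ) : Finset ℕ :=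
  (Finset.Ico (2 ^ j true) (2 ^ (j true + 1))).filter (fun m =>
    ∀ k ∈ Finset.Ico (2 ^ j false) (2 ^ (j false + 1)),
      T / 8 ≤ VV 2 B m k ∧ VV 2 B m k ≤ 16 * T)

lemma mem_st {T B : ℝ} {j : Bool → ℕ} {m : ℕ} (h : m ∈ st T B j) :
    2 ^ j true ≤ m ∧ m < 2 ^ (j true + 1) ∧
      T / 8 ≤ (m : ℝ) ^ 2 * (2 ^ j false : ℕ) * Real.exp (-B - (2 - 1)) ∧
      (m : ℝ) ^ 2 * (2 ^ j false : ℕ) * Real.exp (-B - (2 - 1)) ≤ 16 * T := by
  unfold st at h
  simp only [Finset.mem_filter] at h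
  rw [Finset.mem_Ico] at h
  have h1 := h.2 (2 ^ j false) (Finset.mem_Ico.2 ⟨le_rfl, by
    rw [pow_succ]
    have : 0 < 2 ^ j false := by positivity
    omega⟩)
  rw [VV_two] at h1
  exact ⟨h.1.1, h.1.2, h1.1, h1.2⟩

theorem av2 (h1 : T_BK) (h2 : T_PER) (h3 : Pool.Agent.H25.DL.T_CN) : T_AV2 := by
  classical
  intro ψ χ τ Y B η t₀ C κ hY hκ hph hρ'
  obtain ⟨C₁, T₁, hC₁, hBK⟩ := h1 ψ χ 2 τ two_pos Y B η t₀ C κ le_rfl (by norm_num) hY hκ hph
  refine ⟨3 / 2, by norm_num, fun D hD1 hD2 => ?_⟩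
  have hD0 : 0 < D := by linarith
  obtain ⟨C₂, hC₂, hCN⟩ := h3 Bool (fd ψ χ 2 τ two_pos) 1 D hD0 one_pos
    (by intro l; cases l <;> simp [fd])
  have hρ0 : 0 < Real.exp (-B - (2 - 1)) := Real.exp_pos _
  have hsρ := Real.sqrt_pos.2 hρ0
  obtain ⟨c4, hc4⟩ : ∃ c4 : ℝ, c4 = C₁ * (8 * (4 / Real.sqrt (Real.exp (-B - (2 - 1))))) :=
    ⟨_, rfl⟩
  have hc40 : 0 < c4 := by rw [hc4]; positivity
  -- the tail of the series
  obtain ⟨s, hs⟩ := (summable_iff_vanishing_norm.1 summable_wt) (1 / (800 * c4)) (by positivity)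
  obtain ⟨M₀, hM₀⟩ : ∃ M₀ : ℕ, ∀ m ∈ s, m < M₀ :=
    ⟨s.sup id + 1, fun m hm => Nat.lt_succ_of_le (Finset.le_sup (f := id) hm)⟩
  obtain ⟨Z₀, hZ₀⟩ : ∃ Z₀ : ℝ, Z₀ = ∑' m, wt m := ⟨_, rfl⟩
  have hZ₀0 : 0 ≤ Z₀ := by rw [hZ₀]; exact tsum_nonneg wt_nonneg
  obtain ⟨e, he⟩ : ∃ e : ℝ, e = 1 / (800 * c4 * (Z₀ + 1)) := ⟨_, rfl⟩
  have he0 : 0 < e := by rw [he]; positivity
  -- the exponential sums
  choose K₀ hK₀ using fun m : ℕ => per_bound h2 ψ χ hρ' m he0
  obtain ⟨Km, hKm⟩ : ∃ Km : ℕ, ∀ m < M₀, K₀ m ≤ Km :=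
    ⟨(Finset.range M₀).sup K₀, fun m hm => Finset.le_sup (Finset.mem_range.2 hm)⟩
  obtain ⟨T₂, hT₂⟩ := log_small C₂ (400 * C₁ * C₂) (by positivity)
  refine ⟨max (max T₁ T₂) (max 16 (8 * (M₀ : ℝ) ^ 2 * Real.exp (-B - (2 - 1)) * Km)), ?_⟩
  intro T hT H W hw y hy
  obtain ⟨h16, hH, hW⟩ := hw
  subst hH hW
  have hTT₁ : T₁ ≤ T := ((le_max_left _ _).trans (le_max_left _ _)).trans hT
  have hTT₂ : T₂ ≤ T := ((le_max_right _ _).trans (le_max_left _ _)).trans hT
  have hTK : 8 * (M₀ : ℝ) ^ 2 * Real.exp (-B - (2 - 1)) * Km ≤ T :=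
    ((le_max_right _ _).trans (le_max_right _ _)).trans hT
  have hT0 : 0 < T := by linarith
  obtain ⟨hcard, hsz⟩ := hCN T (by linarith)
  -- the bound for one `j`
  have hone : ∀ j ∈ mains (fd ψ χ 2 τ two_pos) 1 D T,
      ‖AV (fd ψ χ 2 τ two_pos) Y j (5 * T / 4) (T / 2) y‖ ≤ C₁ * T ^ (3 / 4 : ℝ) +
        ∑ m ∈ st T B j, C₁ * (4 / Real.sqrt (Real.exp (-B - (2 - 1))) * T *
          ((if m < M₀ then e else 1) * wt m)) := by
    intro j hj
    have hSZ : Real.sqrt (SZ j) ≤ T ^ (3 / 4 : ℝ) := by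
      rw [sqrt_SZ]
      refine (hsz j hj).trans ?_
      exact Real.rpow_le_rpow_of_exponent_le (by linarith) (by linarith)
    have hb := hBK T hTT₁ j y (fun m => (if m < M₀ then e else 1) * ((2 ^ j false : ℕ) : ℝ)) hy
      (by
        intro m hm hst x hx1 hx2
        have hmem : m ∈ st T B j := by
          unfold st
          simp only [Finset.mem_filter]
          exact ⟨hm, hst⟩
        have hmst := mem_st hmem
        have hx2' : x ≤ 2 * 2 ^ j false := by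
          rw [pow_succ] at hx2
          omega
        have e1 : ∑ k ∈ Finset.Ico (2 ^ j false) x, ((ArithmeticFunction.moebius k : ℤ) : ℂ) *
            chz χ k * cexp ((-((2 - 1) * VV 2 B m k) : ℝ) * I) =
            ∑ k ∈ Finset.Ico (2 ^ j false) x, ((ArithmeticFunction.moebius k : ℤ) : ℂ) *
            chz χ k * cexp ((-((m : ℝ) ^ 2 * k * Real.exp (-B - (2 - 1))) : ℝ) * I) := by
          refine Finset.sum_congr rfl fun k _ => ?_
          rw [VV_two]
          norm_num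
        rw [e1]
        by_cases hmM : m < M₀
        · simp only [hmM, if_true]
          refine hK₀ m (2 ^ j false) x ?_ Nat.one_le_two_pow hx1 hx2'
          refine (hKm m hmM).trans ?_
          have hm1 : (m : ℝ) ^ 2 ≤ (M₀ : ℝ) ^ 2 := by
            have : (m : ℝ) ≤ M₀ := by exact_mod_cast hmM.le
            gcongr
          have h5 := hmst.2.2.1
          have hM0 : (0 : ℝ) < M₀ := by
            have : 0 < M₀ := by omega
            exact_mod_cast this
          have h6 : 8 * (M₀ : ℝ) ^ 2 * Real.exp (-B - (2 - 1)) * Km ≤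
              8 * (M₀ : ℝ) ^ 2 * Real.exp (-B - (2 - 1)) * (2 ^ j false : ℕ) := by
            have h7 : (m : ℝ) ^ 2 * (2 ^ j false : ℕ) * Real.exp (-B - (2 - 1)) ≤
                (M₀ : ℝ) ^ 2 * (2 ^ j false : ℕ) * Real.exp (-B - (2 - 1)) := by gcongr
            calc 8 * (M₀ : ℝ) ^ 2 * Real.exp (-B - (2 - 1)) * Km ≤ T := hTK
              _ = 8 * (T / 8) := by ring
              _ ≤ 8 * ((M₀ : ℝ) ^ 2 * (2 ^ j false : ℕ) * Real.exp (-B - (2 - 1))) := by
                  have := h5.trans h7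
                  gcongr
              _ = 8 * (M₀ : ℝ) ^ 2 * Real.exp (-B - (2 - 1)) * (2 ^ j false : ℕ) := by ring
          have h8 := le_of_mul_le_mul_left h6 (by positivity)
          exact_mod_cast h8
        · simp only [hmM, if_false, one_mul]
          exact triv_bound χ _ hx2')
    refine hb.trans ?_
    rw [mul_add]
    refine add_le_add (mul_le_mul_of_nonneg_left hSZ hC₁.le) ?_
    rw [Finset.mul_sum]
    refine Finset.sum_le_sum fun m hm => ?_
    have hmst := mem_st (T := T) (B := B) (j := j) hm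
    have hm1 : 1 ≤ m := le_trans Nat.one_le_two_pow hmst.1
    have hif : (0 : ℝ) ≤ if m < M₀ then e else 1 := by split_ifs <;> positivity
    have := term_le hT0.le hρ0 hif hm1 (Nat.one_le_two_pow (n := j false)) hmst.2.2.2
    push_cast at this ⊢
    exact mul_le_mul_of_nonneg_left this hC₁.le
  refine (norm_sum_le _ _).trans ((Finset.sum_le_sum hone).trans ?_)
  rw [Finset.sum_add_distrib, Finset.sum_const, nsmul_eq_mul]
  -- the first part
  have hA : ((mains (fd ψ χ 2 τ two_pos) 1 D T).card : ℝ) * (C₁ * T ^ (3 / 4 : ℝ)) ≤ T / 400 := by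
    have h4 := hT₂ T hTT₂
    calc ((mains (fd ψ χ 2 τ two_pos) 1 D T).card : ℝ) * (C₁ * T ^ (3 / 4 : ℝ))
        ≤ (C₂ * Real.log T ^ C₂) * (C₁ * T ^ (3 / 4 : ℝ)) := by gcongr
      _ = (400 * C₁ * C₂ * Real.log T ^ C₂) * T ^ (3 / 4 : ℝ) / 400 := by ring
      _ ≤ T ^ (1 / 4 : ℝ) * T ^ (3 / 4 : ℝ) / 400 := by gcongr
      _ = T / 400 := by
          rw [← Real.rpow_add hT0]
          norm_num
  -- the second part
  have hB : ∑ j ∈ mains (fd ψ χ 2 τ two_pos) 1 D T, ∑ m ∈ st T B j,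
      C₁ * (4 / Real.sqrt (Real.exp (-B - (2 - 1))) * T *
          ((if m < M₀ then e else 1) * wt m)) ≤ T / 400 := by
    have hd := double_sum (mains (fd ψ χ 2 τ two_pos) 1 D T) (st T B)
      (fun m => C₁ * (4 / Real.sqrt (Real.exp (-B - (2 - 1))) * T *
          ((if m < M₀ then e else 1) * wt m))) (fun m => by
        have := wt_nonneg m
        have hif : (0 : ℝ) ≤ if m < M₀ then e else 1 := by split_ifs <;> positivity
        positivity) (fun m => by
        by_cases hm : 1 ≤ m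
        · refine count hρ0 hm _ (T := T) fun j hj => ?_
          exact mem_st (Finset.mem_filter.1 hj).2
        · have h0 : ((mains (fd ψ χ 2 τ two_pos) 1 D T).filter fun j => m ∈ st T B j) = ∅ := by
            rw [Finset.filter_eq_empty_iff]
            intro j _ hj
            have := (mem_st hj).1
            have h1 : 1 ≤ 2 ^ j true := Nat.one_le_two_pow
            omega
          rw [h0]
          simp)
    refine hd.trans ?_
    set U := (mains (fd ψ χ 2 τ two_pos) 1 D T).biUnion (st T B) with hU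
    have hsum : ∑ m ∈ U, ((if m < M₀ then e else 1) * wt m) ≤ e * Z₀ + 1 / (800 * c4) := by
      rw [← Finset.sum_filter_add_sum_filter_not U (fun m => m < M₀)]
      refine add_le_add ?_ ?_
      · rw [Finset.sum_congr rfl (g := fun m => e * wt m) (fun m hm => by
          rw [if_pos (Finset.mem_filter.1 hm).2]), ← Finset.mul_sum]
        refine mul_le_mul_of_nonneg_left ?_ he0.le
        rw [hZ₀]
        exact summable_wt.sum_le_tsum _ fun m _ => wt_nonneg m
      · rw [Finset.sum_congr rfl (g := fun m => wt m) (fun m hm => by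
          rw [if_neg (Finset.mem_filter.1 hm).2, one_mul])]
        have hdis : Disjoint (U.filter fun m => ¬m < M₀) s := by
          rw [Finset.disjoint_left]
          intro m hm hms
          exact (Finset.mem_filter.1 hm).2 (hM₀ m hms)
        exact (le_abs_self _).trans (hs _ hdis).le
    calc 8 * ∑ m ∈ U, C₁ * (4 / Real.sqrt (Real.exp (-B - (2 - 1))) * T *
          ((if m < M₀ then e else 1) * wt m))
        = c4 * T * ∑ m ∈ U, ((if m < M₀ then e else 1) * wt m) := by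
          rw [Finset.mul_sum, Finset.mul_sum]
          refine Finset.sum_congr rfl fun m _ => ?_
          rw [hc4]
          ring
      _ ≤ c4 * T * (e * Z₀ + 1 / (800 * c4)) := by gcongr
      _ ≤ T / 400 := by
          have h6 : c4 * (e * Z₀) ≤ 1 / 800 := by
            rw [he]
            have : c4 * (1 / (800 * c4 * (Z₀ + 1)) * Z₀) = 1 / 800 * (Z₀ / (Z₀ + 1)) := by
              field_simp
            rw [this]
            have : Z₀ / (Z₀ + 1) ≤ 1 := by
              rw [div_le_one (by positivity)]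
              linarith
            linarith
          have h7 : c4 * (1 / (800 * c4)) = 1 / 800 := by field_simp
          calc c4 * T * (e * Z₀ + 1 / (800 * c4)) =
              T * (c4 * (e * Z₀) + c4 * (1 / (800 * c4))) := by ring
            _ ≤ T * (1 / 800 + 1 / 800) := by
                rw [h7]
                gcongr
            _ = T / 400 := by ring
  linarith

end Pool.Agent.H43.DP.AV2
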