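import Pool.Agent.H25.DP.Targets

/-!
# Two dilations: the oscillatory integral away from the stationary point
-/

set_option autoImplicit false

open Complex MeasureTheory Set

namespace Pool.Agent.H43.DP.IOB

open Pool.Agent.H25.DL Pool.Agent.H25.DP

/-- one integration by parts -/
lemma ibp1 {a b : ℝ} (hab : a ≤ b) {F F' ψ ψ1 : ℝ → ℝ}
    (hF : ∀ x ∈ Icc a b, HasDerivAt F (F' x) x) (hψ : ∀ x ∈ Icc a b, HasDerivAt ψ (ψ1 x) x)
    (hF' : ContinuousOn F' (Icc a b)) (hψ1 : ContinuousOn ψ1 (Icc a b))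
    (hFa : F a = 0) (hFb : F b = 0) :
    ∫ x in a..b, ((F x * ψ1 x : ℝ) : ℂ) * cexp ((ψ x : ℝ) * I) =
      I * ∫ x in a..b, ((F' x : ℝ) : ℂ) * cexp ((ψ x : ℝ) * I) := by
  have hcF : ContinuousOn F (Icc a b) := fun x hx => (hF x hx).continuousAt.continuousWithinAt
  have hcψ : ContinuousOn ψ (Icc a b) := fun x hx => (hψ x hx).continuousAt.continuousWithinAt
  have hcE : ContinuousOn (fun x => cexp ((ψ x : ℝ) * I)) (Icc a b) := by
    refine Complex.continuous_exp.comp_continuousOn ?_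
    exact (Complex.continuous_ofReal.comp_continuousOn hcψ).mul continuousOn_const
  have hc1 : ContinuousOn (fun x => ((F' x : ℝ) : ℂ) * cexp ((ψ x : ℝ) * I)) (Icc a b) :=
    (Complex.continuous_ofReal.comp_continuousOn hF').mul hcE
  have hc2 : ContinuousOn (fun x => ((F x * ψ1 x : ℝ) : ℂ) * cexp ((ψ x : ℝ) * I))
      (Icc a b) :=
    (Complex.continuous_ofReal.comp_continuousOn (hcF.mul hψ1)).mul hcE
  have hi1 : IntervalIntegrable (fun x => ((F' x : ℝ) : ℂ) * cexp ((ψ x : ℝ) * I)) volume a b :=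
    ContinuousOn.intervalIntegrable (by rwa [uIcc_of_le hab])
  have hi2 : IntervalIntegrable (fun x => ((F x * ψ1 x : ℝ) : ℂ) * cexp ((ψ x : ℝ) * I))
      volume a b :=
    ContinuousOn.intervalIntegrable (by rwa [uIcc_of_le hab])
  have hd : ∀ x ∈ uIcc a b, HasDerivAt (fun x => ((F x : ℝ) : ℂ) * cexp ((ψ x : ℝ) * I))
      (((F' x : ℝ) : ℂ) * cexp ((ψ x : ℝ) * I) +
        I * (((F x * ψ1 x : ℝ) : ℂ) * cexp ((ψ x : ℝ) * I))) x := by
    intro x hx
    rw [uIcc_of_le hab] at hx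
    have h1 := (hF x hx).ofReal_comp
    have h2 := ((hψ x hx).ofReal_comp.mul_const I).cexp
    refine (h1.mul h2).congr_deriv ?_
    push_cast
    ring
  have hint := intervalIntegral.integral_eq_sub_of_hasDerivAt hd (hi1.add (hi2.const_mul I))
  rw [intervalIntegral.integral_add hi1 (hi2.const_mul I), intervalIntegral.integral_const_mul,
    hFa, hFb] at hint
  simp only [Complex.ofReal_zero, zero_mul, sub_zero] at hint
  have hI : I * I = -1 := Complex.I_mul_I
  linear_combination (-I) * hint + (∫ x in a..b, ((F x * ψ1 x : ℝ) : ℂ) * cexp ((ψ x : ℝ) * I)) * hI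

/-- two integrations by parts -/
lemma ibp2 {a b M : ℝ} (hab : a ≤ b) {w w1 w2 ψ ψ1 ψ2 ψ3 : ℝ → ℝ}
    (hw : ∀ x ∈ Icc a b, HasDerivAt w (w1 x) x) (hw1 : ∀ x ∈ Icc a b, HasDerivAt w1 (w2 x) x)
    (hw2 : ContinuousOn w2 (Icc a b))
    (hψ : ∀ x ∈ Icc a b, HasDerivAt ψ (ψ1 x) x) (hψ1 : ∀ x ∈ Icc a b, HasDerivAt ψ1 (ψ2 x) x)
    (hψ2 : ∀ x ∈ Icc a b, HasDerivAt ψ2 (ψ3 x) x) (hψ3 : ContinuousOn ψ3 (Icc a b))
    (hne : ∀ x ∈ Icc a b, ψ1 x ≠ 0)
    (hwa : w a = 0) (hwb : w b = 0) (hw1a : w1 a = 0) (hw1b : w1 b = 0)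
    (hM : ∀ x ∈ Icc a b, |w2 x / ψ1 x ^ 2 - 3 * (w1 x * ψ2 x / ψ1 x ^ 3) -
      w x * ψ3 x / ψ1 x ^ 3 + 3 * (w x * ψ2 x ^ 2 / ψ1 x ^ 4)| ≤ M) :
    ‖∫ x in a..b, ((w x : ℝ) : ℂ) * cexp ((ψ x : ℝ) * I)‖ ≤ M * (b - a) := by
  have hcw : ContinuousOn w (Icc a b) := fun x hx => (hw x hx).continuousAt.continuousWithinAt
  have hcw1 : ContinuousOn w1 (Icc a b) := fun x hx => (hw1 x hx).continuousAt.continuousWithinAt
  have hcψ1 : ContinuousOn ψ1 (Icc a b) := fun x hx => (hψ1 x hx).continuousAt.continuousWithinAt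
  have hcψ2 : ContinuousOn ψ2 (Icc a b) := fun x hx => (hψ2 x hx).continuousAt.continuousWithinAt
  set g : ℝ → ℝ := fun x => w x / ψ1 x with hg
  set g' : ℝ → ℝ := fun x => w1 x / ψ1 x - w x * ψ2 x / ψ1 x ^ 2 with hg'
  set k : ℝ → ℝ := fun x => w1 x / ψ1 x ^ 2 - w x * ψ2 x / ψ1 x ^ 3 with hk
  set k' : ℝ → ℝ := fun x => w2 x / ψ1 x ^ 2 - 3 * (w1 x * ψ2 x / ψ1 x ^ 3) -
      w x * ψ3 x / ψ1 x ^ 3 + 3 * (w x * ψ2 x ^ 2 / ψ1 x ^ 4) with hk'
  have hdg : ∀ x ∈ Icc a b, HasDerivAt g (g' x) x := by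
    intro x hx
    have h0 := hne x hx
    refine ((hw x hx).div (hψ1 x hx) h0).congr_deriv ?_
    simp only [hg']
    field_simp
  have hdk : ∀ x ∈ Icc a b, HasDerivAt k (k' x) x := by
    intro x hx
    have h0 := hne x hx
    have h1 := (hw1 x hx).div ((hψ1 x hx).pow 2) (pow_ne_zero 2 h0)
    have h2 := ((hw x hx).mul (hψ2 x hx)).div ((hψ1 x hx).pow 3) (pow_ne_zero 3 h0)
    refine (h1.sub h2).congr_deriv ?_
    simp only [hk', Pi.pow_apply, Pi.mul_apply]
    field_simp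
    ring
  have hcg' : ContinuousOn g' (Icc a b) :=
    (hcw1.div hcψ1 hne).sub ((hcw.mul hcψ2).div (hcψ1.pow 2) fun x hx => pow_ne_zero 2 (hne x hx))
  have hck' : ContinuousOn k' (Icc a b) := by
    refine (((hw2.div (hcψ1.pow 2) fun x hx => pow_ne_zero 2 (hne x hx)).sub
      (continuousOn_const.mul ((hcw1.mul hcψ2).div (hcψ1.pow 3)
        fun x hx => pow_ne_zero 3 (hne x hx)))).sub
      ((hcw.mul hψ3).div (hcψ1.pow 3) fun x hx => pow_ne_zero 3 (hne x hx))).add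
      (continuousOn_const.mul ((hcw.mul (hcψ2.pow 2)).div (hcψ1.pow 4)
        fun x hx => pow_ne_zero 4 (hne x hx)))
  have hI1 := ibp1 hab hdg hψ hcg' hcψ1 (by simp [hg, hwa]) (by simp [hg, hwb])
  have hI2 := ibp1 hab hdk hψ hck' hcψ1 (by simp [hk, hwa, hw1a]) (by simp [hk, hwb, hw1b])
  have he1 : ∫ x in a..b, ((w x : ℝ) : ℂ) * cexp ((ψ x : ℝ) * I) =
      ∫ x in a..b, ((g x * ψ1 x : ℝ) : ℂ) * cexp ((ψ x : ℝ) * I) := by
    refine intervalIntegral.integral_congr fun x hx => ?_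
    rw [uIcc_of_le hab] at hx
    have h0 := hne x hx
    have : g x * ψ1 x = w x := by simp only [hg]; field_simp
    simp only [this]
  have he2 : ∫ x in a..b, ((g' x : ℝ) : ℂ) * cexp ((ψ x : ℝ) * I) =
      ∫ x in a..b, ((k x * ψ1 x : ℝ) : ℂ) * cexp ((ψ x : ℝ) * I) := by
    refine intervalIntegral.integral_congr fun x hx => ?_
    rw [uIcc_of_le hab] at hx
    have h0 := hne x hx
    have : k x * ψ1 x = g' x := by simp only [hk, hg']; field_simp
    simp only [this]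
  rw [he1, hI1, he2, hI2, norm_mul, norm_mul, Complex.norm_I, one_mul, one_mul]
  have := intervalIntegral.norm_integral_le_of_norm_le_const (a := a) (b := b) (C := M)
    (f := fun x => ((k' x : ℝ) : ℂ) * cexp ((ψ x : ℝ) * I)) (fun x hx => by
      rw [uIoc_of_le hab] at hx
      rw [norm_mul, Complex.norm_exp_ofReal_mul_I, mul_one, Complex.norm_real, Real.norm_eq_abs]
      exact hM x ⟨hx.1.le, hx.2⟩)
  rwa [abs_of_nonneg (by linarith)] at this


lemma hasDerivAt_phs {d B η L v : ℝ} (hv : v ≠ 0) :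
    HasDerivAt (phs d B η L) (d * Real.log v + d + B - L + η / v) v := by
  unfold phs
  have h1 := ((hasDerivAt_id v).const_mul d).mul (Real.hasDerivAt_log hv)
  have h2 := (hasDerivAt_id v).const_mul B
  have h3 := (Real.hasDerivAt_log hv).const_mul η
  have h4 := (hasDerivAt_id v).mul_const L
  refine (((h1.add h2).add h3).sub h4).congr_deriv ?_
  simp only [id]
  field_simp
  ring

lemma hasDerivAt_phs1 {d B η L v : ℝ} (hv : v ≠ 0) :
    HasDerivAt (fun v => d * Real.log v + d + B - L + η / v) (d / v - η / v ^ 2) v := by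
  have h1 := (((Real.hasDerivAt_log hv).const_mul d).add_const d).add_const B
  have h2 := h1.sub_const L
  have h3 := (hasDerivAt_inv hv).const_mul η
  refine ((h2.add h3).congr_deriv ?_).congr_of_eventuallyEq ?_
  · field_simp
    ring
  · refine Filter.Eventually.of_forall fun x => ?_
    simp only [Pi.add_apply, div_eq_mul_inv]

lemma hasDerivAt_phs2 {d η v : ℝ} (hv : v ≠ 0) :
    HasDerivAt (fun v => d / v - η / v ^ 2) (-(d / v ^ 2) + 2 * η / v ^ 3) v := by
  have h1 := (hasDerivAt_inv hv).const_mul d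
  have h2 := (((hasDerivAt_id v).pow 2).inv (by simpa using pow_ne_zero 2 hv)).const_mul η
  refine ((h1.sub h2).congr_deriv ?_).congr_of_eventuallyEq ?_
  · simp only [id, Pi.pow_apply]
    norm_num
    field_simp
    ring
  · refine Filter.Eventually.of_forall fun x => ?_
    simp only [Pi.sub_apply, Pi.inv_apply, Pi.pow_apply, id, div_eq_mul_inv]

lemma log_le_half {T : ℝ} (hT : 0 < T) : Real.log T ≤ T / 2 := by
  have h1 := Real.log_le_sub_one_of_pos (show 0 < T / 2 by positivity)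
  rw [Real.log_div hT.ne' two_ne_zero] at h1
  have := Real.log_two_lt_d9
  linarith

theorem iob : T_IOB := by
  intro d B η hd
  set K : ℝ := 4 * d + 16 * |η| with hK
  have hη0 := abs_nonneg η
  have hK0 : 0 < K := by positivity
  refine ⟨384 + 296 * K + 48 * K ^ 2, Real.exp (4 * |η| + 1), by positivity, ?_⟩
  intro T hT H W y L δ hTH hW hHW hy hδ hlow
  have hT1 : 1 ≤ T := by
    refine le_trans ?_ hT
    exact Real.one_le_exp (by positivity)
  have hT0 : 0 < T := by linarith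
  have hlog : 4 * |η| + 1 ≤ Real.log T := by
    rw [Real.le_log_iff_exp_le hT0]
    exact hT
  have hW0 : 0 < W := by linarith
  have hWT : W ≤ T := by linarith
  have hhalf := log_le_half hT0
  have hδ0 : 0 < δ := lt_of_lt_of_le (by positivity) hδ
  have hTδ : W ≤ T * δ := by
    rw [div_le_iff₀ hT0] at hδ
    linarith
  have hyl : -(T / 2) ≤ y := by linarith [neg_abs_le y]
  have hv : ∀ u ∈ Icc H (H + W), T / 2 ≤ u + y := by
    intro u hu
    linarith [hu.1]
  have hv0 : ∀ u ∈ Icc H (H + W), 0 < u + y := fun u hu => by linarith [hv u hu]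
  have hinv : ∀ u ∈ Icc H (H + W), ∀ n : ℕ, 1 / (u + y) ^ n ≤ 2 ^ n / T ^ n := by
    intro u hu n
    have h1 := hv u hu
    have h2 := hv0 u hu
    rw [div_le_div_iff₀ (by positivity) (by positivity), one_mul, ← mul_pow]
    exact pow_le_pow_left₀ hT0.le (by linarith) n
  have hηv : ∀ u ∈ Icc H (H + W), |η / (u + y)| ≤ δ / 2 := by
    intro u hu
    have h1 := hv u hu
    have h2 := hv0 u hu
    rw [abs_div, abs_of_pos h2, div_le_iff₀ h2]
    have : δ / 2 * (T / 2) ≤ δ / 2 * (u + y) := by gcongr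
    nlinarith
  set ψ : ℝ → ℝ := fun u => phs d B η L (u + y) with hψ
  set ψ1 : ℝ → ℝ := fun u => d * Real.log (u + y) + d + B - L + η / (u + y) with hψ1
  set ψ2 : ℝ → ℝ := fun u => d / (u + y) - η / (u + y) ^ 2 with hψ2
  set ψ3 : ℝ → ℝ := fun u => -(d / (u + y) ^ 2) + 2 * η / (u + y) ^ 3 with hψ3
  set w : ℝ → ℝ := fun u => om ((u - H) / W) with hw
  set w1 : ℝ → ℝ := fun u => om' ((u - H) / W) * (1 / W) with hw1
  set w2 : ℝ → ℝ := fun u => om'' ((u - H) / W) * (1 / W) * (1 / W) with hw2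
  have hshift : ∀ x : ℝ, HasDerivAt (fun u : ℝ => u + y) 1 x := fun x =>
    (hasDerivAt_id x).add_const y
  have hsc : ∀ x : ℝ, HasDerivAt (fun u : ℝ => (u - H) / W) (1 / W) x := fun x =>
    ((hasDerivAt_id x).sub_const H).div_const W
  have h1 : ∀ x ∈ Icc H (H + W), HasDerivAt ψ (ψ1 x) x := by
    intro x hx
    have := (hasDerivAt_phs (d := d) (B := B) (η := η) (L := L) (hv0 x hx).ne').comp x (hshift x)
    rw [mul_one] at this
    exact this
  have h2 : ∀ x ∈ Icc H (H + W), HasDerivAt ψ1 (ψ2 x) x := by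
    intro x hx
    have := (hasDerivAt_phs1 (d := d) (B := B) (η := η) (L := L) (hv0 x hx).ne').comp x (hshift x)
    rw [mul_one] at this
    exact this
  have h3 : ∀ x ∈ Icc H (H + W), HasDerivAt ψ2 (ψ3 x) x := by
    intro x hx
    have := (hasDerivAt_phs2 (d := d) (η := η) (hv0 x hx).ne').comp x (hshift x)
    rw [mul_one] at this
    exact this
  have hcψ3 : ContinuousOn ψ3 (Icc H (H + W)) := by
    have hc : ContinuousOn (fun u : ℝ => u + y) (Icc H (H + W)) := by fun_prop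
    exact ((continuousOn_const.div (hc.pow 2) fun x hx => pow_ne_zero 2 (hv0 x hx).ne').neg).add
      (continuousOn_const.div (hc.pow 3) fun x hx => pow_ne_zero 3 (hv0 x hx).ne')
  have h4 : ∀ x ∈ Icc H (H + W), HasDerivAt w (w1 x) x := fun x _ =>
    HasDerivAt.comp (h₂ := om) (h := fun u : ℝ => (u - H) / W) x
      (hasDerivAt_om ((x - H) / W)) (hsc x)
  have h5 : ∀ x ∈ Icc H (H + W), HasDerivAt w1 (w2 x) x := fun x _ =>
    (HasDerivAt.comp (h₂ := om') (h := fun u : ℝ => (u - H) / W) x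
      (hasDerivAt_om' ((x - H) / W)) (hsc x)).mul_const (1 / W)
  have hcw2 : ContinuousOn w2 (Icc H (H + W)) := by
    have : Continuous om'' := by unfold om''; fun_prop
    exact (((this.comp (by fun_prop : Continuous fun u : ℝ => (u - H) / W)).mul
      continuous_const).mul continuous_const).continuousOn
  have hlow' : ∀ x ∈ Icc H (H + W), δ / 2 ≤ |ψ1 x| := by
    intro x hx
    have h1 := hlow x hx
    have h2 := hηv x hx
    have h3 := abs_sub_abs_le_abs_sub (d * Real.log (x + y) + d + B - L) (-(η / (x + y)))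
    rw [abs_neg, sub_neg_eq_add] at h3
    show δ / 2 ≤ |d * Real.log (x + y) + d + B - L + η / (x + y)|
    linarith
  have hne : ∀ x ∈ Icc H (H + W), ψ1 x ≠ 0 := by
    intro x hx h0
    have := hlow' x hx
    rw [h0, abs_zero] at this
    linarith
  have hsI : ∀ x ∈ Icc H (H + W), 0 ≤ (x - H) / W ∧ (x - H) / W ≤ 1 := by
    intro x hx
    constructor
    · exact div_nonneg (by linarith [hx.1]) hW0.le
    · rw [div_le_one hW0]
      linarith [hx.2]
  have hbw : ∀ x ∈ Icc H (H + W), |w x| ≤ 1 := fun x hx => abs_om_le (hsI x hx).1 (hsI x hx).2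
  have hbw1 : ∀ x ∈ Icc H (H + W), |w1 x| ≤ 12 / W := by
    intro x hx
    have := abs_om'_le (hsI x hx).1 (hsI x hx).2
    simp only [hw1]
    rw [abs_mul, abs_of_pos (show 0 < 1 / W by positivity), div_eq_mul_one_div 12 W]
    gcongr
  have hbw2 : ∀ x ∈ Icc H (H + W), |w2 x| ≤ 96 / W ^ 2 := by
    intro x hx
    have := abs_om''_le (hsI x hx).1 (hsI x hx).2
    simp only [hw2]
    rw [abs_mul, abs_mul, abs_of_pos (show 0 < 1 / W by positivity)]
    calc |om'' ((x - H) / W)| * (1 / W) * (1 / W) ≤ 96 * (1 / W) * (1 / W) := by gcongr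
      _ = 96 / W ^ 2 := by ring
  have hbψ2 : ∀ x ∈ Icc H (H + W), |ψ2 x| ≤ K / T := by
    intro x hx
    have e1 := hinv x hx 1
    have e2 := hinv x hx 2
    have h0 := hv0 x hx
    simp only [pow_one] at e1
    have hT2 : T ≤ T ^ 2 := by nlinarith
    have : 4 / T ^ 2 ≤ 4 / T := by gcongr
    simp only [hψ2]
    calc |d / (x + y) - η / (x + y) ^ 2| ≤ |d / (x + y)| + |η / (x + y) ^ 2| := abs_sub _ _
      _ = d * (1 / (x + y)) + |η| * (1 / (x + y) ^ 2) := by
          rw [abs_div, abs_div, abs_of_pos hd, abs_of_pos h0, abs_of_pos (pow_pos h0 2)]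
          ring
      _ ≤ d * (2 / T) + |η| * (2 ^ 2 / T ^ 2) := by gcongr
      _ ≤ d * (2 / T) + |η| * (4 / T) := by
          norm_num
          gcongr
      _ ≤ K / T := by
          rw [hK]
          have : 0 ≤ (2 * d + 12 * |η|) / T := by positivity
          have e : (4 * d + 16 * |η|) / T = d * (2 / T) + |η| * (4 / T) +
            (2 * d + 12 * |η|) / T := by ring
          linarith
  have hbψ3 : ∀ x ∈ Icc H (H + W), |ψ3 x| ≤ K / T ^ 2 := by
    intro x hx
    have e1 := hinv x hx 2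
    have e2 := hinv x hx 3
    have h0 := hv0 x hx
    have hT2 : T ^ 2 ≤ T ^ 3 := by nlinarith [sq_nonneg T]
    have : 8 / T ^ 3 ≤ 8 / T ^ 2 := by gcongr
    simp only [hψ3]
    calc |-(d / (x + y) ^ 2) + 2 * η / (x + y) ^ 3|
        ≤ |-(d / (x + y) ^ 2)| + |2 * η / (x + y) ^ 3| := abs_add_le _ _
      _ = d * (1 / (x + y) ^ 2) + 2 * |η| * (1 / (x + y) ^ 3) := by
          rw [abs_neg, abs_div, abs_div, abs_of_pos hd, abs_of_pos (pow_pos h0 2),
            abs_of_pos (pow_pos h0 3), abs_mul, abs_of_pos (two_pos : (0 : ℝ) < 2)]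
          ring
      _ ≤ d * (2 ^ 2 / T ^ 2) + 2 * |η| * (2 ^ 3 / T ^ 3) := by gcongr
      _ ≤ d * (4 / T ^ 2) + 2 * |η| * (8 / T ^ 2) := by
          norm_num
          gcongr
      _ = K / T ^ 2 := by
          rw [hK]
          ring
  have hb : ∀ x ∈ Icc H (H + W), ∀ (n : ℕ) (z Z : ℝ), |z| ≤ Z →
      |z / ψ1 x ^ n| ≤ Z / (δ / 2) ^ n := by
    intro x hx n z Z hz
    rw [abs_div, abs_pow]
    have h := hlow' x hx
    have hZ : 0 ≤ Z := (abs_nonneg z).trans hz
    gcongr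
  have hq : 1 / (T * δ) ≤ 1 / W := by gcongr
  have hq2 : 1 / T ≤ 1 / W := by gcongr
  have hM : ∀ x ∈ Icc H (H + W), |w2 x / ψ1 x ^ 2 - 3 * (w1 x * ψ2 x / ψ1 x ^ 3) -
      w x * ψ3 x / ψ1 x ^ 3 + 3 * (w x * ψ2 x ^ 2 / ψ1 x ^ 4)| ≤
      (384 + 296 * K + 48 * K ^ 2) / (W ^ 2 * δ ^ 2) := by
    intro x hx
    have b1 := hb x hx 2 (w2 x) _ (hbw2 x hx)
    have b2 := hb x hx 3 (w1 x * ψ2 x) (12 / W * (K / T)) (by
      rw [abs_mul]
      have := hbw1 x hx
      have := hbψ2 x hx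
      gcongr)
    have b3 := hb x hx 3 (w x * ψ3 x) (1 * (K / T ^ 2)) (by
      rw [abs_mul]
      have := hbw x hx
      have := hbψ3 x hx
      gcongr)
    have b4 := hb x hx 4 (w x * ψ2 x ^ 2) (1 * (K / T) ^ 2) (by
      rw [abs_mul, abs_pow]
      have := hbw x hx
      have := hbψ2 x hx
      gcongr)
    have c1 : 96 / W ^ 2 / (δ / 2) ^ 2 = 384 * (1 / (W ^ 2 * δ ^ 2)) := by
      field_simp
      norm_num
    have c2 : 12 / W * (K / T) / (δ / 2) ^ 3 ≤ 96 * K * (1 / (W ^ 2 * δ ^ 2)) := by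
      calc 12 / W * (K / T) / (δ / 2) ^ 3 = 96 * K * (1 / (W * δ ^ 2)) * (1 / (T * δ)) := by
            field_simp
            norm_num
        _ ≤ 96 * K * (1 / (W * δ ^ 2)) * (1 / W) := by gcongr
        _ = 96 * K * (1 / (W ^ 2 * δ ^ 2)) := by
            field_simp
    have c3 : 1 * (K / T ^ 2) / (δ / 2) ^ 3 ≤ 8 * K * (1 / (W ^ 2 * δ ^ 2)) := by
      calc 1 * (K / T ^ 2) / (δ / 2) ^ 3 = 8 * K * (1 / δ ^ 2) * (1 / (T * δ)) * (1 / T) := by
            field_simp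
            norm_num
        _ ≤ 8 * K * (1 / δ ^ 2) * (1 / W) * (1 / W) := by gcongr
        _ = 8 * K * (1 / (W ^ 2 * δ ^ 2)) := by
            field_simp
    have c4 : 1 * (K / T) ^ 2 / (δ / 2) ^ 4 ≤ 16 * K ^ 2 * (1 / (W ^ 2 * δ ^ 2)) := by
      calc 1 * (K / T) ^ 2 / (δ / 2) ^ 4
          = 16 * K ^ 2 * (1 / δ ^ 2) * (1 / (T * δ)) * (1 / (T * δ)) := by
            field_simp
            norm_num
        _ ≤ 16 * K ^ 2 * (1 / δ ^ 2) * (1 / W) * (1 / W) := by gcongr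
        _ = 16 * K ^ 2 * (1 / (W ^ 2 * δ ^ 2)) := by
            field_simp
    have e0 : (384 + 296 * K + 48 * K ^ 2) / (W ^ 2 * δ ^ 2) = 384 * (1 / (W ^ 2 * δ ^ 2)) +
        3 * (96 * K * (1 / (W ^ 2 * δ ^ 2))) + 8 * K * (1 / (W ^ 2 * δ ^ 2)) +
        3 * (16 * K ^ 2 * (1 / (W ^ 2 * δ ^ 2))) := by ring
    rw [e0]
    refine (abs_add_le _ _).trans (add_le_add ((abs_sub _ _).trans
      (add_le_add ((abs_sub _ _).trans (add_le_add ?_ ?_)) ?_)) ?_)
    · exact b1.trans c1.le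
    · rw [abs_mul, abs_of_pos (by norm_num : (0 : ℝ) < 3)]
      linarith
    · exact b3.trans c3
    · rw [abs_mul, abs_of_pos (by norm_num : (0 : ℝ) < 3)]
      linarith
  have hWne := hW0.ne'
  have hend : (H + W - H) / W = 1 := by
    rw [add_sub_cancel_left]
    exact div_self hWne
  have hfin := ibp2 (by linarith : H ≤ H + W) h4 h5 hcw2 h1 h2 h3 hcψ3 hne
    (by simp [hw, om_zero]) (by simp only [hw, hend, om_one])
    (by simp [hw1, om'_zero]) (by simp only [hw1, hend, om'_one, zero_mul]) hM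
  unfold Pool.Agent.H25.DP.IO
  refine hfin.trans (le_of_eq ?_)
  field_simp
  ring

end Pool.Agent.H43.DP.IOB
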